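import Pool.Agent.P.MP_24d2d6_an.EV.Main

/-!
Q1 holds on a separable Banach space exactly when the space is finite-dimensional.
-/

open Pool.Agent.P.MP_24d2d6_an

namespace Pool.Agent.Results.MP_24d2d6_an.EverySpace

theorem result (𝕜 : Type) [RCLike 𝕜] (X : Type) [NormedAddCommGroup X] [NormedSpace 𝕜 X]
    [CompleteSpace X] [TopologicalSpace.SeparableSpace X] :
    (∀ T : X →L[𝕜] X, IsQuasiRigid T → ∃ Λ : X →L[𝕜] X, ∀ h : X →L[𝕜] X, MemOmega T h →
      (h : X → X) ∈ closure (Set.range fun n : ℕ => ((T ^ (n + 1) * Λ : X →L[𝕜] X) : X → X))) ↔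
    FiniteDimensional 𝕜 X := by
  constructor
  · intro H
    by_contra hX
    obtain ⟨e, f, hef, hd⟩ := EV.exists_bio hX
    obtain ⟨T, hT, hΛ⟩ := EV.counter_of_bio e f hef hd
    obtain ⟨Λ, hall⟩ := H T hT
    obtain ⟨h, hh, hn⟩ := hΛ Λ
    refine hn ⟨closure_mono ?_ (hall h hh)⟩
    rintro _ ⟨n, rfl⟩
    exact ⟨n + 1, rfl⟩
  · intro hX T _
    refine ⟨1, fun h hh => ?_⟩
    obtain ⟨ω, -, h1, D, hD, hx⟩ := hh.exists_seq
    refine mem_closure_of_tendsto (f := fun n => ((T ^ ω n : X →L[𝕜] X) : X → X))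
      (tendsto_pi_nhds.2 (EV.tendsto_of_finiteDimensional hD hx))
      (Filter.Eventually.of_forall fun n => ⟨ω n - 1, ?_⟩)
    dsimp only
    rw [Nat.sub_add_cancel (h1 n), mul_one]

end Pool.Agent.Results.MP_24d2d6_an.EverySpace
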